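import Pool.Agent.PRT.StmtsC

set_option autoImplicit false

namespace Pool.Agent.PRT.H15

open Pool.Agent.PRT
open Set MeasureTheory
open scoped ContDiff

/-- **CHL** -/
theorem chl (hk : KgrStmt) (hp : PbdStmt) : ChlStmt := by
  intro F w C hF hA N R l0 hN
  obtain ⟨B, hB⟩ := hp.2 F hF.sm hF.eqv R
  obtain ⟨c, hc⟩ := hk R
  set B1 : ℝ := max B 1 with hB1
  have hB1' : (1 : ℝ) ≤ B1 := le_max_right _ _
  have hBm : Bm R B1 F := hB.mono le_rfl (le_max_left _ _)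
  set K : ℝ := (c : ℝ) * (1 + B1) ^ c with hK
  obtain ⟨q, a, b, L, hq, hL0, hqL, hder, hpos, hsm⟩ :=
    hA (2 * N * (2 * c + 1)) (max (max 1 C) (max l0 K))
  have hL1 : 1 ≤ L := (le_max_left _ _).trans ((le_max_left _ _).trans hL0)
  have hLC : C ≤ L := (le_max_right _ _).trans ((le_max_left _ _).trans hL0)
  have hLl : l0 ≤ L := (le_max_left _ _).trans ((le_max_right _ _).trans hL0)
  have hLK : K ≤ L := (le_max_right _ _).trans ((le_max_right _ _).trans hL0)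
  have hL0' : (0 : ℝ) ≤ L := zero_le_one.trans hL1
  have hbd : ∀ m ≤ q, Bm R (L ^ (2 * c + 1)) (F^[m]) := by
    intro m hm
    have h1 := hc F hF.sm q L B1 hL1 (zero_le_one.trans hB1') hder
      (fun i hi1 hi2 z => hBm i (by omega) hi2 z) m hm
    refine h1.mono le_rfl ?_
    have h2 : 1 + (q : ℝ) * B1 ≤ L * (1 + B1) := by
      have : (q : ℝ) * B1 ≤ L * B1 := mul_le_mul_of_nonneg_right hqL (zero_le_one.trans hB1')
      nlinarith
    have h3 : (1 + (q : ℝ) * B1) ^ c ≤ (L * (1 + B1)) ^ c := by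
      apply pow_le_pow_left₀ _ h2
      have : (0 : ℝ) ≤ (q : ℝ) * B1 := by positivity
      linarith
    have h4 : (0 : ℝ) ≤ (c : ℝ) * L ^ c := by positivity
    calc (c : ℝ) * L ^ c * (1 + (q : ℝ) * B1) ^ c ≤ (c : ℝ) * L ^ c * (L * (1 + B1)) ^ c :=
          mul_le_mul_of_nonneg_left h3 h4
      _ = K * L ^ (2 * c) := by
          rw [hK, mul_pow, two_mul, pow_add]
          ring
      _ ≤ L * L ^ (2 * c) := mul_le_mul_of_nonneg_right hLK (by positivity)
      _ = L ^ (2 * c + 1) := by ring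
  set ε : ℝ := ‖(q : ℝ) • w - iv a b‖ with hε
  have h2N : 2 * N ≠ 0 := by omega
  have hi0 : (0 : ℝ) ≤ ε⁻¹ := inv_nonneg.2 hpos.le
  set l : ℝ := (ε⁻¹) ^ (((2 * N : ℕ) : ℝ)⁻¹) with hl
  have hlN : l ^ (2 * N) = ε⁻¹ := Real.rpow_inv_natCast_pow hi0 h2N
  have hl0 : 0 ≤ l := Real.rpow_nonneg hi0 _
  have hLle : L ^ (2 * c + 1) ≤ l := by
    rw [← pow_le_pow_iff_left₀ (by positivity) hl0 h2N, hlN, ← pow_mul]
    have e : (2 * c + 1) * (2 * N) = 2 * N * (2 * c + 1) := by ring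
    rw [e, ← one_div, le_div_iff₀ hpos]
    linarith [mul_comm (L ^ (2 * N * (2 * c + 1))) ε]
  have hLl' : L ≤ l := (le_self_pow₀ hL1 (by omega)).trans hLle
  refine ⟨q, iv a b, l, hLl.trans hLl', ?_⟩
  exact
    { lf := hF
      q1 := hq
      pz := ⟨a, b, rfl⟩
      v0 := hpos
      lN := by rw [hlN]; exact mul_inv_cancel₀ hpos.ne'
      l1 := hL1.trans hLl'
      Cl := hLC.trans hLl'
      ql := hqL.trans hLl'
      bd := fun m hm => (hbd m hm).mono le_rfl hLle }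

end Pool.Agent.PRT.H15
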