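import Pool.Agent.PRT.StmtsD

set_option autoImplicit false

namespace Pool.Agent.PRT.H15

open Pool.Agent.PRT
open Set MeasureTheory
open scoped ContDiff Nat

lemma det_comp' (A B : E →L[ℝ] E) : (A.comp B).det = A.det * B.det := by
  show LinearMap.det ((A : E →ₗ[ℝ] E).comp (B : E →ₗ[ℝ] E)) = _
  exact LinearMap.det_comp _ _

lemma det_one' : (1 : E →L[ℝ] E).det = 1 := by
  show LinearMap.det (LinearMap.id : E →ₗ[ℝ] E) = 1
  exact LinearMap.det_id

lemma bd_shift {V : Type} [NormedAddCommGroup V] [NormedSpace ℝ V] {k : ℕ} {C : ℝ} {ψ : E → V}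
    (h : Bd k C ψ) (w : E) : Bd k C (fun y => ψ (y + w)) := by
  intro i hi z
  rw [iteratedFDeriv_comp_add_right]
  exact h i hi _

lemma det_smooth {A : E → E →L[ℝ] E} (hA : ContDiff ℝ ∞ A) :
    ContDiff ℝ ∞ (fun z => (A z).det) := by
  have e : (fun z => (A z).det) =
      fun z => (A z (1, 0)).1 * (A z (0, 1)).2 - (A z (1, 0)).2 * (A z (0, 1)).1 := by
    funext z
    rw [det_eq]
    rfl
  rw [e]
  have h1 := hA.clm_apply (contDiff_const (c := ((1 : ℝ), (0 : ℝ))))
  have h2 := hA.clm_apply (contDiff_const (c := ((0 : ℝ), (1 : ℝ))))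
  exact (h1.fst.mul h2.snd).sub (h1.snd.mul h2.fst)

/-- `det DW (U z) * det DU z = 1` -/
lemma det_inv {U W : E → E} (hU : ContDiff ℝ ∞ U) (hW : ContDiff ℝ ∞ W) (hWU : ∀ z, W (U z) = z)
    (z : E) : (fderiv ℝ W (U z)).det * (fderiv ℝ U z).det = 1 := by
  have h1 : DifferentiableAt ℝ W (U z) := (hW.differentiable (by simp)).differentiableAt
  have h2 : DifferentiableAt ℝ U z := (hU.differentiable (by simp)).differentiableAt
  have h3 := fderiv_comp z h1 h2
  have h4 : W ∘ U = fun z => z := funext hWU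
  rw [h4, fderiv_fun_id] at h3
  rw [← det_comp', ← h3]
  exact det_one'

/-- constants -/
lemma cst {a c L δ : ℝ} {b n : ℕ} (hL : 1 ≤ L) (hδ : 0 ≤ δ) (ha : 0 ≤ a) (hac : a ≤ c)
    (hbn : b ≤ n) : a * L ^ b * δ ≤ c * L ^ n * δ := by
  have h1 : L ^ b ≤ L ^ n := pow_le_pow_right₀ hL hbn
  have h2 : 0 ≤ L ^ b := pow_nonneg (zero_le_one.trans hL) _
  have h3 : 0 ≤ c := ha.trans hac
  gcongr

/-- **RHO** -/
theorem rho (hdfa : DfaStmt) (hrcp : RcpStmt) (hdtb : DtbStmt) (hinb : InbStmt) (hitg : ItgStmt) :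
    RhoStmt := by
  intro k
  obtain ⟨c1, hc1⟩ := hinb (k + 2)
  obtain ⟨c2, hc2⟩ := hdtb (k + 1)
  obtain ⟨c3, hc3⟩ := hdfa k
  obtain ⟨c4, hc4⟩ := hdtb k
  -- constants
  set K1 : ℕ := c1 + 1 with hK1
  set A0 : ℕ := (k + 1)! * K1 ^ (k + 1) with hA0
  set A1 : ℕ := c2 * K1 ^ 2 with hA1
  set A2 : ℕ := A0 * A1 * (c3 * 2 ^ c3 + 2 ^ k * (1 + c3 * 2 ^ c3) * (c4 * 2)) with hA2
  refine ⟨A0 + A1 + A2 + c1 * (k + 3), ?_⟩
  set c : ℕ := A0 + A1 + A2 + c1 * (k + 3) with hc
  intro F U W w C L δ hF hL hδ hsmall sU sW eU eW hWU hUW hdet bU bg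
  have hL0 : 0 < L := lt_of_lt_of_le one_pos hL
  set M : ℝ := (K1 : ℝ) * L ^ c1 with hM
  have hLc1 : 1 ≤ L ^ c1 := one_le_pow₀ hL
  have hM1 : 1 ≤ M := by
    have : (1 : ℝ) ≤ K1 := by rw [hK1]; push_cast; linarith [Nat.cast_nonneg (α := ℝ) c1]
    nlinarith
  have bW : Bm (k + 2) M W := by
    refine (hc1 U W L sU sW hWU hUW hL (fun z => (hdet z).1) bU).mono le_rfl ?_
    rw [hM, hK1]
    push_cast
    nlinarith [pow_pos hL0 c1]
  have sdW : ContDiff ℝ ∞ (fderiv ℝ W) := sW.fderiv_right (by simp)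
  have bdW : Bd (k + 1) M (fderiv ℝ W) := bm_succ.1 bW
  have b0 : Bd (k + 1) 0 (fun z => fderiv ℝ W z - fderiv ℝ W z) := by
    have e : (fun z => fderiv ℝ W z - fderiv ℝ W z) = fun _ : E => (0 : E →L[ℝ] E) := by
      funext z; simp
    rw [e]
    simpa using bd_const (k + 1) (0 : E →L[ℝ] E)
  set ρ : E → ℝ := fun y => (fderiv ℝ W y).det with hρ
  have sρ : ContDiff ℝ ∞ ρ := det_smooth sdW
  have bρ : Bd (k + 1) ((c2 : ℝ) * M ^ 2) ρ :=
    (hc2 (fderiv ℝ W) (fderiv ℝ W) M 0 sdW sdW hM1 bdW bdW b0).2.1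
  have hCρ0 : 0 ≤ (c2 : ℝ) * M ^ 2 := bρ.nonneg
  have hinvρ : ∀ y, ρ y * (fderiv ℝ U (W y)).det = 1 := by
    intro y
    have := det_inv sU sW hWU (W y)
    rwa [hUW y] at this
  -- the small terms
  set g : E → E := fun z => U (F z) - U z - w with hg
  have sg : ContDiff ℝ ∞ g := ((sU.comp hF.sm).sub sU).sub contDiff_const
  set E1 : E → E := fun y => g (W y) with hE1
  have sE1 : ContDiff ℝ ∞ E1 := sg.comp sW
  set D : ℝ := ((k + 1)! : ℝ) * δ * M ^ (k + 1) with hD
  have bE1 : Bd (k + 1) D E1 :=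
    (bg.mono (Nat.le_succ _) le_rfl).comp (bW.mono (Nat.le_succ _) le_rfl) hM1 sg sW
  have hD0 : 0 ≤ D := bE1.nonneg
  have hDe : D = (A0 : ℝ) * L ^ (c1 * (k + 1)) * δ := by
    rw [hD, hM, hA0]
    push_cast
    rw [mul_pow, pow_mul]
    ring
  have hD1 : D ≤ 1 := by
    refine le_trans ?_ hsmall
    rw [hDe]
    apply cst hL hδ (Nat.cast_nonneg _)
    · exact_mod_cast (by omega : A0 ≤ c)
    · have : c1 * (k + 1) ≤ c1 * (k + 3) := Nat.mul_le_mul_left _ (by omega)
      omega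
  set ρw : E → ℝ := fun y => ρ (y + w) with hρw
  have sρw : ContDiff ℝ ∞ ρw := sρ.comp (contDiff_id.add contDiff_const)
  have bρw : Bd (k + 1) ((c2 : ℝ) * M ^ 2) ρw := bd_shift bρ w
  -- first difference
  set X : ℝ := (c2 : ℝ) * M ^ 2 with hX
  have bT1 : Bd k (c3 * X * D * (1 + D) ^ c3) (fun z => ρw (z + E1 z) - ρw z) :=
    hc3 ℝ ρw E1 X D sρw sE1 hCρ0 bρw.bm (bE1.mono (Nat.le_succ _) le_rfl)
  have hpow : (1 + D) ^ c3 ≤ 2 ^ c3 := pow_le_pow_left₀ (by linarith) (by linarith) _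
  have bT1' : Bd k (c3 * X * D * 2 ^ c3) (fun z => ρw (z + E1 z) - ρw z) := by
    refine bT1.mono le_rfl ?_
    have : (0 : ℝ) ≤ c3 * X * D := by positivity
    exact mul_le_mul_of_nonneg_left hpow this
  have sT : ContDiff ℝ ∞ (fun z => ρw (z + E1 z)) := sρw.comp (contDiff_id.add sE1)
  have bT2 : Bd k (X * (1 + c3 * 2 ^ c3)) (fun z => ρw (z + E1 z)) := by
    have h := bT1'.add (bρw.mono (Nat.le_succ _) le_rfl) (sT.sub sρw) sρw
    have e : (fun z => ρw (z + E1 z) - ρw z + ρw z) = fun z => ρw (z + E1 z) := by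
      funext z; ring
    rw [e] at h
    refine h.mono le_rfl ?_
    have h1 : (c3 : ℝ) * X * D * 2 ^ c3 ≤ c3 * X * 1 * 2 ^ c3 := by gcongr
    linarith
  -- determinants
  have sdE : ContDiff ℝ ∞ (fderiv ℝ E1) := sE1.fderiv_right (by simp)
  have bdE : Bd k D (fderiv ℝ E1) := bm_succ.1 bE1.bm
  have b1 : Bd k 2 (fun _ : E => (1 : E →L[ℝ] E)) :=
    (bd_const k (1 : E →L[ℝ] E)).mono le_rfl
      (le_trans ContinuousLinearMap.norm_id_le (by norm_num))
  have b1' : Bd k 2 (fun z => (1 : E →L[ℝ] E) + fderiv ℝ E1 z) := by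
    have h := ((bd_const k (1 : E →L[ℝ] E)).mono le_rfl
      (ContinuousLinearMap.norm_id_le)).add bdE contDiff_const sdE
    exact h.mono le_rfl (by linarith)
  have bdd : Bd k D (fun z => ((1 : E →L[ℝ] E) + fderiv ℝ E1 z) - 1) := by
    have e : (fun z => ((1 : E →L[ℝ] E) + fderiv ℝ E1 z) - 1) = fderiv ℝ E1 := by
      funext z; abel
    rw [e]
    exact bdE
  have bdet : Bd k (c4 * 2 * D)
      (fun z => ((1 : E →L[ℝ] E) + fderiv ℝ E1 z).det - (1 : E →L[ℝ] E).det) :=
    (hc4 (fun _ => 1) (fun z => 1 + fderiv ℝ E1 z) 2 D contDiff_const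
      (contDiff_const.add sdE) (by norm_num) b1 b1' bdd).2.2
  have sdet : ContDiff ℝ ∞
      (fun z => ((1 : E →L[ℝ] E) + fderiv ℝ E1 z).det - (1 : E →L[ℝ] E).det) :=
    (det_smooth (contDiff_const.add sdE)).sub contDiff_const
  -- the identity
  have hF1 : ∀ y, y + E1 y + w = U (F (W y)) := by
    intro y
    simp only [hE1, hg]
    rw [hUW y]
    abel
  have hid : ∀ y, ρw (y + E1 y) * ((1 : E →L[ℝ] E) + fderiv ℝ E1 y).det = ρ y := by
    intro y
    have d1 : DifferentiableAt ℝ U (F (W y)) := (sU.differentiable (by simp)).differentiableAt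
    have d2 : DifferentiableAt ℝ F (W y) := (hF.sm.differentiable (by simp)).differentiableAt
    have d3 : DifferentiableAt ℝ W y := (sW.differentiable (by simp)).differentiableAt
    have d4 : DifferentiableAt ℝ E1 y := (sE1.differentiable (by simp)).differentiableAt
    have e1 : fderiv ℝ (fun y => U (F (W y))) y =
        (fderiv ℝ U (F (W y))).comp ((fderiv ℝ F (W y)).comp (fderiv ℝ W y)) := by
      have h1 : HasFDerivAt (fun y => U (F (W y)))
          ((fderiv ℝ U (F (W y))).comp ((fderiv ℝ F (W y)).comp (fderiv ℝ W y))) y :=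
        d1.hasFDerivAt.comp y (d2.hasFDerivAt.comp y d3.hasFDerivAt)
      exact h1.fderiv
    have e2 : fderiv ℝ (fun y => U (F (W y))) y = 1 + fderiv ℝ E1 y := by
      have h0 : (fun y => U (F (W y))) = fun y => y + E1 y + w := by
        funext y
        exact (hF1 y).symm
      have h1 : HasFDerivAt (fun y => y + E1 y + w) (1 + fderiv ℝ E1 y) y :=
        ((hasFDerivAt_id y).add d4.hasFDerivAt).add_const w
      rw [h0]
      exact h1.fderiv
    rw [← e2, e1, det_comp', det_comp', hF.det, one_mul]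
    have h5 : ρw (y + E1 y) = ρ (U (F (W y))) := by
      simp only [hρw]
      rw [hF1 y]
    rw [h5, ← mul_assoc]
    have h6 := hinvρ (U (F (W y)))
    rw [hWU] at h6
    rw [h6, one_mul]
  have hfin : (fun y => (fderiv ℝ W (y + w)).det - (fderiv ℝ W y).det) =
      fun y => -(ρw (y + E1 y) - ρw y) -
        (ContinuousLinearMap.mul ℝ ℝ) (ρw (y + E1 y))
          (((1 : E →L[ℝ] E) + fderiv ℝ E1 y).det - (1 : E →L[ℝ] E).det) := by
    funext y
    have h1 := hid y
    have h2 : (fderiv ℝ W (y + w)).det = ρw y := rfl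
    have h3 : (fderiv ℝ W y).det = ρ y := rfl
    rw [h2, h3, ← h1, det_one', ContinuousLinearMap.mul_apply']
    ring
  have bprod := Bd.bil (ContinuousLinearMap.mul ℝ ℝ) (ContinuousLinearMap.opNorm_mul_le ℝ ℝ)
    bT2 bdet sT sdet
  have sprod : ContDiff ℝ ∞ (fun y => (ContinuousLinearMap.mul ℝ ℝ) (ρw (y + E1 y))
          (((1 : E →L[ℝ] E) + fderiv ℝ E1 y).det - (1 : E →L[ℝ] E).det)) := by
    simp only [ContinuousLinearMap.mul_apply']
    exact sT.mul sdet
  have btot := bT1'.neg.sub bprod (sT.sub sρw).neg sprod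
  refine ⟨?_, ?_, ?_⟩
  · exact
      { sm := sρ
        per := by
          intro a b z
          have e : (fun z => W (z + iv a b)) = fun z => W z + iv a b := by
            funext z
            exact eW a b z
          have h1 : fderiv ℝ (fun z => W (z + iv a b)) z = fderiv ℝ W (z + iv a b) :=
            fderiv_comp_add_right _
          rw [e, fderiv_add_const] at h1
          show (fderiv ℝ W (z + iv a b)).det = (fderiv ℝ W z).det
          rw [← h1]
        lb := by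
          intro y
          have h1 := hinvρ y
          have h2 := (hdet (W y)).1
          have h3 := (hdet (W y)).2
          by_contra hlt
          push Not at hlt
          have : ρ y * (fderiv ℝ U (W y)).det < 1 := by
            rcases le_or_gt 0 (ρ y) with h0 | h0
            · nlinarith
            · nlinarith
          linarith
        one := hitg W sW eW }
  · refine (bρ.mono (Nat.le_succ _) ?_)
    have h1 : X = (A1 : ℝ) * L ^ (c1 * 2) * 1 := by
      rw [hX, hM, hA1]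
      push_cast
      rw [mul_pow, pow_mul]
      ring
    show X ≤ _
    rw [h1]
    have h2 := cst (δ := 1) (c := (c : ℝ)) (n := c) (b := c1 * 2) hL zero_le_one
      (Nat.cast_nonneg A1) (by exact_mod_cast (by omega : A1 ≤ c))
      (by
        have : c1 * 2 ≤ c1 * (k + 3) := Nat.mul_le_mul_left _ (by omega)
        omega)
    linarith
  · rw [hfin]
    refine btot.mono le_rfl ?_
    have h1 : (c3 : ℝ) * X * D * 2 ^ c3 + 2 ^ k * (X * (1 + c3 * 2 ^ c3)) * (c4 * 2 * D) =
        (A2 : ℝ) * L ^ (c1 * (k + 3)) * δ := by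
      rw [hDe, hX, hM, hA2, hA1]
      push_cast
      have e : L ^ (c1 * (k + 3)) = L ^ (c1 * (k + 1)) * (L ^ c1) ^ 2 := by
        rw [← pow_mul, ← pow_add]
        congr 1
        ring
      rw [e]
      ring
    rw [h1]
    apply cst hL hδ (Nat.cast_nonneg _)
    · exact_mod_cast (by omega : A2 ≤ c)
    · omega

end Pool.Agent.PRT.H15
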